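import Pool.Agent.Helper57.ZF.Goals

/-! Project ZF (MP_ef0af8_co): packets DISJ and ISO. -/

namespace Pool.Agent.Helper59.ZF

open Pool.Agent.Helper57.ZF

theorem disj_aux {M : Type} [MetricSpace M] (L c c' : Finset M) (u u' z : M) (δ δ' : ℝ)
    (hc : c ⊆ L) (hc' : c' ⊆ L) (hu' : u' ∈ c') (h0 : 0 < δ) (h0' : 0 < δ')
    (hz : dist z u = δ) (hz' : dist z u' = δ') (h1 : ∀ q ∈ c, dist q u ≤ δ / 7)
    (h2 : ∀ q ∈ L, dist q u ≤ 15 * δ → q ∈ c) (h1' : ∀ q ∈ c', dist q u' ≤ δ' / 7)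
    (h2' : ∀ q ∈ L, dist q u' ≤ 15 * δ' → q ∈ c') (hle : δ' ≤ δ) : c = c' := by
  have e1 : dist u' u ≤ δ' + δ := by
    calc dist u' u ≤ dist u' z + dist z u := dist_triangle _ _ _
      _ = δ' + δ := by rw [dist_comm u' z, hz', hz]
  have hu'c : u' ∈ c := h2 u' (hc' hu') (by linarith)
  have e2 : dist u' u ≤ δ / 7 := h1 u' hu'c
  have e3 : δ ≤ δ' + δ / 7 := by
    calc δ = dist z u := hz.symm
      _ ≤ dist z u' + dist u' u := dist_triangle _ _ _
      _ ≤ δ' + δ / 7 := by rw [hz']; linarith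
  ext q
  constructor
  · intro hq
    refine h2' q (hc hq) ?_
    have := dist_triangle q u u'
    rw [dist_comm u u'] at this
    have := h1 q hq
    linarith
  · intro hq
    refine h2 q (hc' hq) ?_
    have := dist_triangle q u' u
    have := h1' q hq
    linarith

theorem DISJ : Pool.Agent.Helper57.ZF.G_DISJ := by
  intro M _ L c c' u u' z δ δ' hc hc' hu hu' h0 h0' hz hz' h1 h2 h1' h2'
  rcases le_total δ' δ with h | h
  · exact disj_aux L c c' u u' z δ δ' hc hc' hu' h0 h0' hz hz' h1 h2 h1' h2' h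
  · exact (disj_aux L c' c u' u z δ' δ hc' hc hu h0' h0 hz' hz h1' h2' h1 h2 h).symm

theorem ISO : Pool.Agent.Helper57.ZF.G_ISO := by
  intro M _ P t rad L w hL p hp p' hp' hI hI' hcl u hu δ hδ1 hδ2
  have hrad : 0 < rad (w p) := hL.radpos _ (hL.sub (hL.wmem p hp))
  set ρ := dist p (w p) with hρ
  set ρ' := dist p' (w p') with hρ'
  have hρ0 : 0 < ρ := by have := hI.1; linarith
  have hu1 : u ∈ L ∧ dist u (w p) ≤ ρ / 32 := by
    simpa [clus] using hu
  have hu2 : u ∈ L ∧ dist u (w p') ≤ ρ' / 32 := by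
    rw [hcl] at hu
    simpa [clus] using hu
  have e1 : ρ ≤ dist p u + ρ / 32 := by
    calc ρ ≤ dist p u + dist u (w p) := dist_triangle _ _ _
      _ ≤ _ := by linarith [hu1.2]
  have e2 : 31 / 64 * ρ < δ := by linarith
  have e3 : dist p' u ≤ ρ' + ρ' / 32 := by
    calc dist p' u ≤ dist p' (w p') + dist (w p') u := dist_triangle _ _ _
      _ ≤ _ := by rw [dist_comm (w p') u]; linarith [hu2.2]
  refine ⟨by linarith, ?_, ?_⟩
  · intro q hq
    have hq1 : q ∈ L ∧ dist q (w p) ≤ ρ / 32 := by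
      simpa [clus] using hq
    have := dist_triangle q (w p) u
    rw [dist_comm (w p) u] at this
    linarith [hq1.2, hu1.2]
  · intro q hq hqd
    rw [hcl]
    have h3 : dist q (w p') ≤ 15 * δ + ρ' / 32 := by
      have := dist_triangle q u (w p')
      linarith [hu2.2]
    have hρ'0 : 0 ≤ ρ' := dist_nonneg
    have h4 : dist q (w p') ≤ 32 * ρ' := by linarith
    have h5 : dist q (w p') ≤ ρ' / 32 := by
      by_contra hcon
      push Not at hcon
      exact hI'.2 ⟨q, hq, hcon, h4⟩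
    simp only [clus, Finset.mem_filter]
    exact ⟨hq, h5⟩

end Pool.Agent.Helper59.ZF
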